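import Pool.Agent.Q276.DA.Rec

set_option autoImplicit false

namespace Pool.Agent.Q276.DA

open Complex

/-- large real `t`, all `n` -/
theorem large_pos (hZF : S_ZF) (hBIG : S_BIG) (t : ℝ) (ht : 10 ^ 11 ≤ t) (n : ℕ) :
    P ((t : ℂ) * I) n ≠ 0 := by
  rcases le_or_gt (15 * (n : ℝ)) t with h | h
  · apply hZF
    rw [norm_mul, Complex.norm_I, mul_one, Complex.norm_real, Real.norm_eq_abs]
    exact h.trans (le_abs_self t)
  · exact hBIG t n ht h

theorem P_neg (t : ℝ) (n : ℕ) (h : P ((t : ℂ) * I) n ≠ 0) : P (((-t : ℝ) : ℂ) * I) n ≠ 0 := by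
  have h1 : (((-t : ℝ) : ℂ) * I) = (starRingEnd ℂ) ((t : ℂ) * I) := by
    rw [map_mul, Complex.conj_I, Complex.conj_ofReal]
    push_cast
    ring
  rw [h1, P_conj]
  intro h2
  apply h
  simpa using h2

theorem large (hZF : S_ZF) (hBIG : S_BIG) (t : ℝ) (ht : 10 ^ 11 ≤ |t|) (n : ℕ) :
    P ((t : ℂ) * I) n ≠ 0 := by
  rcases le_total 0 t with h | h
  · rw [abs_of_nonneg h] at ht
    exact large_pos hZF hBIG t ht n
  · rw [abs_of_nonpos h] at ht
    have := P_neg (-t) n (large_pos hZF hBIG (-t) ht n)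
    rwa [neg_neg] at this

theorem int_all (hZF : S_ZF) (hBIG : S_BIG) (hARG : S_ARG) (hARC : S_ARC) (t : ℤ) (ht : t ≠ 0)
    (n : ℕ) : P ((t : ℂ) * I) n ≠ 0 := by
  by_cases hex : ∃ p ∈ [3, 11, 19, 43, 47, 59, 67, 71], ¬ ((p : ℕ) : ℤ) ∣ t
  · obtain ⟨p, hp, hpt⟩ := hex
    have hpr : p.Prime := by
      simp only [List.mem_cons, List.not_mem_nil, or_false] at hp
      rcases hp with rfl | rfl | rfl | rfl | rfl | rfl | rfl | rfl <;> norm_num
    exact hARG p hpr (hARC p hp) t hpt n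
  · push Not at hex
    have hd : ∀ p ∈ [3, 11, 19, 43, 47, 59, 67, 71], p ∣ t.natAbs := by
      intro p hp
      exact Int.natCast_dvd.mp (hex p hp)
    have h3 := hd 3 (by simp)
    have h11 := hd 11 (by simp)
    have h19 := hd 19 (by simp)
    have h43 := hd 43 (by simp)
    have h47 := hd 47 (by simp)
    have h59 := hd 59 (by simp)
    have h67 := hd 67 (by simp)
    have h71 := hd 71 (by simp)
    have e1 := Nat.Coprime.mul_dvd_of_dvd_of_dvd (by norm_num : Nat.Coprime 3 11) h3 h11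
    have e2 := Nat.Coprime.mul_dvd_of_dvd_of_dvd (by norm_num : Nat.Coprime (3 * 11) 19) e1 h19
    have e3 := Nat.Coprime.mul_dvd_of_dvd_of_dvd (by norm_num : Nat.Coprime (3 * 11 * 19) 43) e2 h43
    have e4 := Nat.Coprime.mul_dvd_of_dvd_of_dvd
      (by norm_num : Nat.Coprime (3 * 11 * 19 * 43) 47) e3 h47
    have e5 := Nat.Coprime.mul_dvd_of_dvd_of_dvd
      (by norm_num : Nat.Coprime (3 * 11 * 19 * 43 * 47) 59) e4 h59
    have e6 := Nat.Coprime.mul_dvd_of_dvd_of_dvd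
      (by norm_num : Nat.Coprime (3 * 11 * 19 * 43 * 47 * 59) 67) e5 h67
    have e7 := Nat.Coprime.mul_dvd_of_dvd_of_dvd
      (by norm_num : Nat.Coprime (3 * 11 * 19 * 43 * 47 * 59 * 67) 71) e6 h71
    have hle := Nat.le_of_dvd (Int.natAbs_pos.mpr ht) e7
    have hle2 : (100000000000 : ℕ) ≤ t.natAbs := le_trans (by norm_num) hle
    have hR : (10 : ℝ) ^ 11 ≤ |(t : ℝ)| := by
      have h1 : ((t.natAbs : ℕ) : ℝ) = |(t : ℝ)| := by
        rw [← Int.cast_abs, Int.abs_eq_natAbs]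
        simp
      rw [← h1]
      have : ((100000000000 : ℕ) : ℝ) ≤ ((t.natAbs : ℕ) : ℝ) := by exact_mod_cast hle2
      refine le_trans (le_of_eq ?_) this
      norm_num
    have := large hZF hBIG (t : ℝ) hR n
    simpa using this

end Pool.Agent.Q276.DA
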