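import Pool.Agent.Q276.DA.Big
import Pool.Agent.Q276.DA.Fin
import Pool.Agent.Q177.DA.ZF
import Pool.Agent.Q177.DA.MID
import Pool.Agent.Q198.DA.Lap
import Pool.Agent.Q198.DA.Loc
import Pool.Agent.Q204.DA.BND
import Pool.Agent.Q204.DA.MODG
import Pool.Agent.Q204.DA.SER
import Pool.Agent.Q238.DA.Fara
import Pool.Agent.Q238.DA.Lam
import Pool.Agent.Q238.DA.Mode
import Pool.Agent.Q275.DA.Drop
import Pool.Agent.Q275.DA.Int
import Pool.Agent.Q275.DA.Mono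
import Pool.Agent.Q124.DA.Der
import Pool.Agent.Q124.DA.Num
import Pool.Agent.Q124.DA.Root
import Pool.Agent.Q124.DA.Tn

/-!
# D'Arcais polynomials on the imaginary axis: the lemmas put together
-/

set_option autoImplicit false

namespace Pool.Agent.Q276.DA

open Complex

theorem all_ZF : S_ZF := Pool.Agent.Q177.DA.t_ZF t_REC

theorem all_TN : S_TN := Pool.Agent.Q124.DA.t_TN Pool.Agent.Q238.DA.t_MODE

theorem all_N2 : S_N2 :=
  Pool.Agent.Q124.DA.t_N2 all_TN Pool.Agent.Q204.DA.t_SER Pool.Agent.Q204.DA.t_BND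

theorem all_ROOT : S_ROOT :=
  Pool.Agent.Q124.DA.t_ROOT (Pool.Agent.Q124.DA.t_N1 all_TN Pool.Agent.Q204.DA.t_BND) all_N2
    (Pool.Agent.Q124.DA.t_N3 all_TN Pool.Agent.Q204.DA.t_BND)

theorem all_MODS : S_MODS :=
  Pool.Agent.Q177.DA.t_MODS (Pool.Agent.Q204.DA.t_MODG Pool.Agent.Q204.DA.t_SER
    Pool.Agent.Q238.DA.t_MODE)

theorem all_LOW : S_LOW := Pool.Agent.Q275.DA.t_LOW all_MODS Pool.Agent.Q204.DA.t_BND

theorem all_MID : S_MID := Pool.Agent.Q177.DA.t_MID all_MODS Pool.Agent.Q204.DA.t_BND all_LOW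

theorem all_LOC : S_LOC :=
  Pool.Agent.Q198.DA.t_LOC Pool.Agent.Q204.DA.t_SER Pool.Agent.Q204.DA.t_BND
    Pool.Agent.Q238.DA.t_MODE all_N2

theorem all_DROP : S_DROP :=
  Pool.Agent.Q275.DA.t_DROP all_ROOT (Pool.Agent.Q275.DA.t_MONO Pool.Agent.Q204.DA.t_SER)
    all_LOW all_MID Pool.Agent.Q238.DA.t_FARA all_LOC

theorem all_BIG : S_BIG :=
  t_BIG Pool.Agent.Q204.DA.t_SER
    (Pool.Agent.Q238.DA.t_LAM Pool.Agent.Q204.DA.t_SER Pool.Agent.Q204.DA.t_BND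
      Pool.Agent.Q238.DA.t_MODE all_ROOT)
    all_LOC all_DROP Pool.Agent.Q198.DA.t_LAP
    (Pool.Agent.Q275.DA.t_INT t_REC Pool.Agent.Q204.DA.t_SER)

/-- all real `t` with `|t| ≥ 10^11` -/
theorem all_large (t : ℝ) (ht : 10 ^ 11 ≤ |t|) (n : ℕ) : P ((t : ℂ) * I) n ≠ 0 :=
  large all_ZF all_BIG t ht n

end Pool.Agent.Q276.DA
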