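import Pool.Agent.Q276.DA.Stm

set_option autoImplicit false

namespace Pool.Agent.Q276.DA

open Complex

theorem zp_re (ρ u : ℝ) : (zp ρ u).re = ρ := by simp [zp]

theorem zp_im (ρ u : ℝ) : (zp ρ u).im = ρ * u := by simp [zp]

theorem continuous_zp (ρ : ℝ) : Continuous (zp ρ) := by unfold zp; fun_prop

theorem continuous_Gzp (hSER : S_SER) (ρ : ℝ) (hρ : 0 < ρ) : Continuous (fun u : ℝ => G (zp ρ u)) := by
  rw [continuous_iff_continuousAt]
  intro u
  have h1 : ContinuousAt G (zp ρ u) := ((hSER.1 (zp ρ u) (by rw [zp_re]; exact hρ)).2.2.1).continuousAt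
  exact ContinuousAt.comp (f := zp ρ) (g := G) h1 (continuous_zp ρ).continuousAt

theorem continuous_H (hSER : S_SER) (ρ u0 : ℝ) (hρ : 0 < ρ) : Continuous (H ρ u0) := by
  unfold H
  have h1 : Continuous (fun v : ℝ => G (zp ρ (u0 + v))) :=
    (continuous_Gzp hSER ρ hρ).comp (by fun_prop : Continuous (fun v : ℝ => u0 + v))
  fun_prop

theorem H_re (ρ u0 v : ℝ) (h : (e ρ (1 + (u0 : ℂ) * I)).re = 0) :
    (H ρ u0 v).re = S ρ (u0 + v) - S ρ u0 := by
  unfold H S
  simp only [sub_re, mul_re, mul_im, ofReal_re, ofReal_im, I_re, I_im, sub_im, h]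
  ring

theorem t_BIG (hSER : S_SER) (hLAM : S_LAM) (hLOC : S_LOC) (hDROP : S_DROP) (hLAP : S_LAP)
    (hINT : S_INT) : S_BIG := by
  intro t n ht htn
  have ht0 : 0 < t := by linarith
  set lam : ℝ := (n : ℝ) / t with hlamd
  have hlam : 1 / 15 ≤ lam := by
    rw [hlamd, le_div_iff₀ ht0]
    linarith
  obtain ⟨ρ, u0, hρ, hρ2, hu1, hu2, hE⟩ := hLAM lam hlam
  have he : e ρ (1 + (u0 : ℂ) * I) = (ρ : ℂ) ^ 2 * (-(lam : ℂ) * I) := by
    have h1 : e ρ (1 + (u0 : ℂ) * I) = (ρ : ℂ) ^ 2 * E (zp ρ u0) := by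
      unfold e zp
      rfl
    rw [h1, hE]
  have hre : (e ρ (1 + (u0 : ℂ) * I)).re = 0 := by
    rw [he]
    simp [pow_two]
  obtain ⟨a, ha1, ha2, ha3⟩ := hLOC ρ u0 hρ hρ2 hu1 hu2 hre
  have hdrop := hDROP ρ u0 hρ hρ2 hu1 hu2 hre
  set X : ℝ := t / ρ with hXd
  have hpi := Real.pi_gt_d2
  have hpi' := Real.pi_lt_d2
  have hX : 3 * 10 ^ 10 ≤ X := by
    rw [hXd, le_div_iff₀ hρ]
    nlinarith
  have hfirst : ∫ v in (-(Real.pi / ρ) - u0)..(Real.pi / ρ - u0), cexp ((X : ℂ) * H ρ u0 v) ≠ 0 := by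
    have hb : Real.pi / (29 / 10) ≤ Real.pi / ρ :=
      div_le_div_of_nonneg_left Real.pi_pos.le hρ hρ2
    have hb2 : (108 : ℝ) / 100 ≤ Real.pi / (29 / 10) := by
      rw [le_div_iff₀ (by norm_num)]; linarith
    apply hLAP (H ρ u0) a X _ _ (continuous_H hSER ρ u0 hρ) ha1 ha2
    · intro v hv
      exact ha3 v (hv.trans (by norm_num))
    · linarith
    · linarith
    · intro v hv1 hv2 hv3
      rw [H_re ρ u0 v hre]
      have h1 : |u0 + v| ≤ Real.pi / ρ := by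
        rw [abs_le]
        constructor <;> linarith
      have h2 : 1 / 1000 ≤ |u0 + v - u0| := by
        rw [add_sub_cancel_left]; exact hv3
      have := hdrop (u0 + v) h1 h2
      linarith
    · exact hX
    · rw [hXd]
      have : Real.pi / ρ - u0 - (-(Real.pi / ρ) - u0) = (2 * Real.pi) / ρ := by ring
      rw [this]
      apply div_le_div_of_nonneg_right _ hρ.le
      linarith
  have hcv : ∫ u in (-(Real.pi / ρ))..(Real.pi / ρ), cexp (((t : ℂ) * I) * G (zp ρ u) + (n : ℂ) * zp ρ u)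
      = cexp (((t : ℂ) * I) * G (zp ρ u0) + (n : ℂ) * zp ρ u0) *
        ∫ v in (-(Real.pi / ρ) - u0)..(Real.pi / ρ - u0), cexp ((X : ℂ) * H ρ u0 v) := by
    have h1 := intervalIntegral.integral_comp_add_right
      (f := fun u : ℝ => cexp (((t : ℂ) * I) * G (zp ρ u) + (n : ℂ) * zp ρ u))
      (a := -(Real.pi / ρ) - u0) (b := Real.pi / ρ - u0) u0
    rw [sub_add_cancel, sub_add_cancel] at h1
    rw [← h1, ← intervalIntegral.integral_const_mul]
    apply intervalIntegral.integral_congr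
    intro v _
    simp only
    rw [← Complex.exp_add]
    congr 1
    unfold H
    rw [he, add_comm v u0]
    have hρc : (ρ : ℂ) ≠ 0 := by exact_mod_cast hρ.ne'
    have htc : (t : ℂ) ≠ 0 := by exact_mod_cast ht0.ne'
    have hX2 : (X : ℂ) = (t : ℂ) / (ρ : ℂ) := by rw [hXd]; push_cast; rfl
    have hl2 : (lam : ℂ) = (n : ℂ) / (t : ℂ) := by rw [hlamd]; push_cast; rfl
    have hz : zp ρ (u0 + v) = zp ρ u0 + (ρ : ℂ) * (v : ℂ) * I := by
      unfold zp; push_cast; ring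
    rw [hX2, hl2, hz]
    field_simp
    ring
  rw [hINT ((t : ℂ) * I) n ρ hρ, hcv]
  have h3 : (ρ / (2 * Real.pi) : ℂ) ≠ 0 := by
    apply div_ne_zero
    · exact_mod_cast hρ.ne'
    · have : (Real.pi : ℂ) ≠ 0 := by exact_mod_cast Real.pi_ne_zero
      simp [this]
  exact mul_ne_zero h3 (mul_ne_zero (Complex.exp_ne_zero _) hfirst)

end Pool.Agent.Q276.DA
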