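import Mathlib

/-!
# D'Arcais polynomials on the imaginary axis: definitions
-/

set_option autoImplicit false

namespace Pool.Agent.Q276.DA

open Complex

/-- sum of the divisors of `k` -/
def sg (k : ℕ) : ℕ := ∑ d ∈ k.divisors, d

/-- values of the D'Arcais polynomials: `P x n = P_n(x)`,
`P_0 = 1`, `(n+1) P_{n+1}(x) = x (σ(1) P_n(x) + ... + σ(n+1) P_0(x))` -/
noncomputable def P (x : ℂ) : ℕ → ℂ
  | 0 => 1
  | (n + 1) => x / ((n : ℂ) + 1) * ∑ k : Fin (n + 1), (sg ((k : ℕ) + 1) : ℂ) * P x (n - (k : ℕ))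
  termination_by n => n

/-- `E z = Σ_{k ≥ 1} σ(k) exp(-k z)` -/
noncomputable def E (z : ℂ) : ℂ :=
  ∑' k : ℕ, (sg (k + 1) : ℂ) * cexp (-((k : ℂ) + 1) * z)

/-- `G z = Σ_{k ≥ 1} (σ(k)/k) exp(-k z)`, the logarithm of the partition generating function at
`q = exp(-z)` -/
noncomputable def G (z : ℂ) : ℂ :=
  ∑' k : ℕ, (sg (k + 1) : ℂ) / ((k : ℂ) + 1) * cexp (-((k : ℂ) + 1) * z)

/-- the point `ρ (1 + u i)` -/
noncomputable def zp (ρ u : ℝ) : ℂ := (ρ : ℂ) * (1 + (u : ℂ) * I)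

/-- the rescaled function `ρ² E(ρ w)` -/
noncomputable def e (ρ : ℝ) (w : ℂ) : ℂ := (ρ : ℂ) ^ 2 * E ((ρ : ℂ) * w)

/-- `- ρ Im G(ρ (1 + u i))` -/
noncomputable def S (ρ u : ℝ) : ℝ := -ρ * (G (zp ρ u)).im

/-- `24 (1+u²)² Re (ρ² E(ρ (1 + u i)))` -/
noncomputable def T (ρ u : ℝ) : ℝ := 24 * (1 + u ^ 2) ^ 2 * (e ρ (1 + (u : ℂ) * I)).re

/-- the main term of `T` -/
noncomputable def N (ρ u : ℝ) : ℝ :=
  8 * Real.pi ^ 2 - (4 * Real.pi ^ 2 + 12 * ρ) * (1 + u ^ 2) + ρ ^ 2 * (1 + u ^ 2) ^ 2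

/-- the exponent of the integral, normalised at `u0` -/
noncomputable def H (ρ u0 v : ℝ) : ℂ :=
  (ρ : ℂ) * I * (G (zp ρ (u0 + v)) - G (zp ρ u0)) - e ρ (1 + (u0 : ℂ) * I) * (v : ℂ)

end Pool.Agent.Q276.DA
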