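import Pool.Agent.Q276.DA.Stm

set_option autoImplicit false

namespace Pool.Agent.Q276.DA

open Complex

theorem P_zero (x : ℂ) : P x 0 = 1 := by rw [P]

theorem P_succ (x : ℂ) (n : ℕ) : P x (n + 1) =
    x / ((n : ℂ) + 1) * ∑ k ∈ Finset.range (n + 1), (sg (k + 1) : ℂ) * P x (n - k) := by
  rw [P, Fin.sum_univ_eq_sum_range (fun k => (sg (k + 1) : ℂ) * P x (n - k)) (n + 1)]

theorem P_rec (x : ℂ) (n : ℕ) : ((n : ℂ) + 1) * P x (n + 1) =
    x * ∑ k ∈ Finset.range (n + 1), (sg (k + 1) : ℂ) * P x (n - k) := by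
  rw [P_succ]
  have h : (n : ℂ) + 1 ≠ 0 := Nat.cast_add_one_ne_zero n
  field_simp

theorem P_conj (x : ℂ) (n : ℕ) : P ((starRingEnd ℂ) x) n = (starRingEnd ℂ) (P x n) := by
  induction n using Nat.strong_induction_on with
  | _ n ih =>
    rcases n with _ | n
    · simp [P_zero]
    · rw [P_succ, P_succ, map_mul, map_sum, map_div₀]
      congr 1
      · simp
      · apply Finset.sum_congr rfl
        intro k hk
        rw [ih (n - k) (by omega)]
        simp

theorem t_REC : S_REC := ⟨P_zero, P_rec, P_conj⟩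

end Pool.Agent.Q276.DA
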