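import Pool.Agent.Q276.DA.Defs

/-!
# D'Arcais polynomials on the imaginary axis: statements of the lemmas, with proofs in words

MP_d73f62_nt, Q2: `P_n(i t) ≠ 0` for all `n ≥ 1` and all integers `t ≠ 0`.

Plan. (1) For a prime `p` such that none of the Gaussian integers `r! P_r(i s)`, `r ≤ p`,
`p ∤ s`, is divisible by `p` (norm not divisible), `P_n(i t) ≠ 0` for all `n` as soon as `p ∤ t`.
This holds for `p = 3, 11, 19, 43, 47, 59, 67, 71`, so `|t| ≥ 355646891721` in the remaining case.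
(2) `P_n(x) ≠ 0` for `|x| ≥ 15 n`. (3) For `t ≥ 10^11`, `15 n > t`, saddle point method, uniform in
`n/t ≥ 1/15`, on the line `Re z = ρ` through the saddle point `z0 = ρ (1 + u0 i)`,
`E(z0) = - i n/t`, `0 < ρ ≤ 2.9`, `0.4 ≤ u0 ≤ 1.05`.

Throughout `W = 1 + u²`, `z = zp ρ u = ρ(1+ui)`, `x = 4π²/z`, `Re x = 4π²/(ρ W)`.
-/

set_option autoImplicit false

namespace Pool.Agent.Q276.DA

open Complex

/-- Recursion in a convenient form and conjugation. Unfold the definition; `Fin.sum_univ_eq_sum_range`;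
induction for the conjugation. -/
def S_REC : Prop :=
  (∀ x : ℂ, P x 0 = 1) ∧
  (∀ (x : ℂ) (n : ℕ), ((n : ℂ) + 1) * P x (n + 1) =
    x * ∑ k ∈ Finset.range (n + 1), (sg (k + 1) : ℂ) * P x (n - k)) ∧
  (∀ (x : ℂ) (n : ℕ), P ((starRingEnd ℂ) x) n = (starRingEnd ℂ) (P x n))

/-- Zero free region. Proof (given `S_REC`): fix `x`, `n ≥ 1` with `15 n ≤ ‖x‖`. Claim: for all
`1 ≤ m ≤ n`, `‖P_{m-1}‖ ≤ (2m/‖x‖) ‖P_m‖` (so `≤ (2/15) ‖P_m‖`) . Strong induction: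
`m P_m = x (P_{m-1} + Σ_{k=2}^m σ(k) P_{m-k})` and by the induction hypothesis
`‖P_{m-k}‖ ≤ (2/15)^(k-1) ‖P_{m-1}‖`, and `Σ_{k ≥ 2} σ(k) (2/15)^(k-1) < 0.4902 < 1/2`
(use `σ(k) ≤ k²` or `k(k+1)/2` for the tail `k ≥ 6`, and exact values
`σ(2..5) = 3, 4, 7, 6`). Hence `‖P_m‖ ≥ (‖x‖/m) (1/2) ‖P_{m-1}‖`. As `P_0 = 1`, all `P_m ≠ 0`. -/
def S_ZF : Prop := ∀ (x : ℂ) (n : ℕ), 15 * (n : ℝ) ≤ ‖x‖ → P x n ≠ 0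

/-- The Gaussian integers `A_n(i t) = n! P_n(i t)` as pairs (real part, imaginary part):
`A_{n+1} = i t Σ_{k=0}^n σ(k+1) n(n-1)...(n-k+1) A_{n-k}`. -/
def Az (t : ℤ) : ℕ → ℤ × ℤ
  | 0 => (1, 0)
  | (n + 1) =>
    (-t * ∑ k : Fin (n + 1), (sg ((k : ℕ) + 1) : ℤ) * (n.descFactorial k : ℤ) * (Az t (n - (k : ℕ))).2,
      t * ∑ k : Fin (n + 1), (sg ((k : ℕ) + 1) : ℤ) * (n.descFactorial k : ℤ) * (Az t (n - (k : ℕ))).1)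
  termination_by n => n

/-- `p` is good: no `A_r(i s)` with `r ≤ p`, `1 ≤ s < p` has norm divisible by `p`. -/
def Good (p : ℕ) : Prop :=
  ∀ s ∈ Finset.Ico 1 p, ∀ r ∈ Finset.range (p + 1),
    ¬ (p : ℤ) ∣ (Az (s : ℤ) r).1 ^ 2 + (Az (s : ℤ) r).2 ^ 2

/-- Proof (given `S_REC`). (a) `n! P_n(it) = a_n + b_n i` with `(a_n, b_n) = Az t n` (induction).
(b) `Az t n` depends, modulo `p`, only on `t` modulo `p`. (c) Modulo `p` (write Gaussian integers,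
or pairs in `ZMod p × ZMod p` with the Gaussian product) `A_{mp+r} ≡ A_{mp} A_r` for `0 ≤ r < p`
and `A_{(m+1)p} ≡ A_{mp} A_p`: in the recursion for `A_{mp+r}` (`1 ≤ r ≤ p`) the coefficient
`descFactorial (mp+r-1) k = (mp+r-1)...(mp+r-k)` is `≡ (r-1)...(r-k)` for `k < r` and divisible by
`p` for `k ≥ r` (the product contains the factor `mp`), if `m ≥ 1`; so by induction on `r`
`A_{mp+r} ≡ it Σ_{k<r} σ(k+1) (r-1)...(r-k) A_{mp} A_{r-1-k} = A_{mp} A_r`. (d) The norm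
`a² + b²` is multiplicative, so by (c) the norm of `A_n(it)` is modulo `p` a product of norms of
`A_r(is)`, `r ≤ p`, `s ≡ t`, hence not divisible by `p` and `A_n(it) ≠ 0`. -/
def S_ARG : Prop :=
  ∀ p : ℕ, p.Prime → Good p → ∀ t : ℤ, ¬ (p : ℤ) ∣ t → ∀ n : ℕ, P ((t : ℂ) * I) n ≠ 0

/-- Computation. (Checked in Python; `7, 23, 31` are not good, these eight are.) Write an efficient
recursion modulo `p` on lists of pairs of natural numbers (prepend `A_r`, one pass over the list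
with the running product `(r-1)(r-2)...` modulo `p` and a table of `σ(k)`), prove that it computes
`Az s r` modulo `p`, and use `decide +kernel`/`decide` (no `native_decide`) for each `p` (about
`p³/2` steps; by the symmetry `s → p - s` (conjugation) half of the `s` suffice). Polynomial
identities are an alternative: any method is fine. If `71` is too slow, deliver the others first. -/
def S_ARC : Prop := ∀ p ∈ [3, 11, 19, 43, 47, 59, 67, 71], Good p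

/-- Basic facts on the two series. Compare with `Σ σ(k) r^k`, `σ(k) ≤ k²`, `r = exp(-Re z) < 1`;
derivatives: `hasDerivAt_tsum_of_isPreconnected` / `differentiableOn_tsum_of_summable_norm` on
half planes, or compose with the power series in `q = exp(-z)`. -/
def S_SER : Prop :=
  (∀ z : ℂ, 0 < z.re →
    Summable (fun k : ℕ => (sg (k + 1) : ℂ) * cexp (-((k : ℂ) + 1) * z)) ∧
    Summable (fun k : ℕ => (sg (k + 1) : ℂ) / ((k : ℂ) + 1) * cexp (-((k : ℂ) + 1) * z)) ∧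
    HasDerivAt G (-E z) z ∧ DifferentiableAt ℂ E z) ∧
  (∀ z : ℂ, E ((starRingEnd ℂ) z) = (starRingEnd ℂ) (E z) ∧
    G ((starRingEnd ℂ) z) = (starRingEnd ℂ) (G z)) ∧
  (∀ z : ℂ, E (z + 2 * Real.pi * I) = E z ∧ G (z + 2 * Real.pi * I) = G z)

/-- Numerical bounds. `‖E z‖ ≤ e^{-x}(1 + 3 e^{-x} + 4 e^{-2x} + 7 e^{-3x} + ...)`,
`‖deriv E z‖ ≤ e^{-x} (1 + 6 e^{-x} + 12 e^{-2x} + ...)`,
`‖G z‖ ≤ e^{-x} (1 + 3/2 e^{-x} + 4/3 e^{-2x} + 7/4 e^{-3x} + ...)`, `x = Re z`.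
True constants: `1.0075` and `1.0149` at `x = 6`; `1.0729` at `3.75`; `1.2219` at `2.7`;
`1.1485` at `2.4` (for `G`); at `x = 2.9`: `Σ σ(k) e^{-2.9 k} = 0.06484 < 1/15 = 0.06667`. -/
def S_BND : Prop :=
  ∀ z : ℂ,
    (6 ≤ z.re → ‖E z‖ ≤ 51 / 50 * Real.exp (-z.re) ∧ ‖deriv E z‖ ≤ 51 / 50 * Real.exp (-z.re)) ∧
    (15 / 4 ≤ z.re → ‖E z‖ ≤ 27 / 25 * Real.exp (-z.re)) ∧
    (27 / 10 ≤ z.re → ‖E z‖ ≤ 5 / 4 * Real.exp (-z.re)) ∧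
    (12 / 5 ≤ z.re → ‖G z‖ ≤ 23 / 20 * Real.exp (-z.re)) ∧
    (29 / 10 ≤ z.re → ‖E z‖ < 1 / 15)

/-- Modular transformation. Mathlib: `EisensteinSeries.E2` (q-expansion `E2 = 1 - 24 Σ σ(n) q^n`, and
the transformation under `S`), `Mathlib/NumberTheory/ModularForms/EisensteinSeries/E2/*`,
`DedekindEta`, `Discriminant` (`eta_comp_eq_csqrt_I_inv`). With `τ = i z/(2π)`, `q = e^{-z}`:
`24 E(z) = 1 - E2(τ)`; `E2(-1/τ) = τ² E2(τ) + 6 τ/(π i)` and `-1/τ = 2π i/z` corresponds to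
`4π²/z`. -/
def S_MODE : Prop := ∀ z : ℂ, 0 < z.re →
  E z = Real.pi ^ 2 / (6 * z ^ 2) - 1 / (2 * z) + 1 / 24 -
    4 * Real.pi ^ 2 / z ^ 2 * E (4 * Real.pi ^ 2 / z)

/-- Proof (given `S_SER`, `S_MODE`). The function
`f(z) = G(z) - π²/(6z) - (1/2) log z + z/24 - G(4π²/z)` has derivative
`-E(z) + π²/(6z²) - 1/(2z) + 1/24 - (4π²/z²) E(4π²/z) = 0` on the right half plane (convex), so
it is constant, and the constant is real because `f(1)` is real (`G` of a positive real is real by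
conjugation). Take imaginary parts. -/
def S_MODG : Prop := ∀ z : ℂ, 0 < z.re →
  (G z).im = (Real.pi ^ 2 / (6 * z)).im + arg z / 2 - z.im / 24 + (G (4 * Real.pi ^ 2 / z)).im

/-- Proof (given `S_MODE`). With `w = 1+ui`, `|w|² = W`: `T = 24 W² Re(π²/(6w²) - ρ/(2w) + ρ²/24 -
(4π²/w²) E(4π²/(ρw)))`, `Re 1/w² = (1-u²)/W² = (2-W)/W²`, `Re 1/w = 1/W`; so
`T = 4π²(2-W) - 12ρW + ρ²W² - 96π² Re(conj(w)² E(4π²/(ρ w)))`, and `N` is the sum of the first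
terms. -/
def S_TN : Prop := ∀ ρ u : ℝ, 0 < ρ →
  T ρ u = N ρ u - 96 * Real.pi ^ 2 *
    ((1 - (u : ℂ) * I) ^ 2 * E (4 * Real.pi ^ 2 / zp ρ u)).re

/-- Proof (given `S_TN`, `S_BND`). `x = 4π²/(ρW)`, `Re`-bound `≥ 11.7`. `N` is decreasing in
`W ∈ [1, 1.16]` (`2ρ²W < 4π²`), so `N ≥ 3.36 π² - 13.92 ρ + 1.3456 ρ² ≥ 4.1`; the other term is
`≤ 96π² W (51/50) e^{-11.7} < 0.01`. -/
def S_N1 : Prop := ∀ ρ u : ℝ, 0 < ρ → ρ ≤ 29 / 10 → 0 ≤ u → u ≤ 2 / 5 → 0 < T ρ u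

/-- Proof (given `S_TN`, `S_SER`, `S_BND`). `N'(u) = 2u(-(4π²+12ρ) + 2ρ²W) ≤ 2u(-4π²+0.57) ≤ -77.8 u`
as `2ρ²W - 12ρ ≤ ρ(2·2.9·2.1025 - 12) ≤ 0.57`. The other term `-96π² Re((1-ui)² E(x))`,
`x = 4π²/(ρ(1+ui))`, `x' = -4π² i/(ρ(1+ui)²)`, `X = Re x = 4π²/(ρW) = |x'|`, has derivative bounded
by `96π² (2√W ‖E(x)‖ + W X ‖E'(x)‖) ≤ 966.5 e^{-X}(2√W + W X)` (`X ≥ 6.47`). For `u ≤ 0.8`:
`W ≤ 1.64`, `X ≥ 8.3`, this is `≤ 3.9` and `N' ≤ -31.1`. For `u ≥ 0.8`: `W ≤ 2.1025`, `X ≥ 6.47`,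
it is `≤ 24.7`, `N' ≤ -62.2` (`X e^{-X}` is decreasing for `X ≥ 1`). -/
def S_N2 : Prop := ∀ ρ u : ℝ, 0 < ρ → ρ ≤ 29 / 10 → 2 / 5 ≤ u → u ≤ 21 / 20 →
  ∃ T' : ℝ, HasDerivAt (T ρ) T' u ∧ T' ≤ -25

/-- Proof (given `S_TN`, `S_BND`). Put `s = ρW`; `-N = 4π²W - 8π² + s(12 - s)`. First `s ≤ 10.5`
(if `ρ ≤ 1.05` then `s ≤ 10ρ`; if `ρ ≥ 1.05` then `s ≤ ρ + π²/ρ ≤ 10.45` by convexity), so
`X = 4π²/s ≥ 3.759` and `|T - N| ≤ 96π² W (27/25) e^{-X} ≤ 1023.4 W e^{-X}`.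
Case `s ≤ 8`: `X ≥ 4.93` and `X e^{-X}` decreasing give `1023.4 e^{-X} ≤ s`, so
`-N - |T-N| ≥ (4π² - s)W - 8π² + 12 s - s² ≥ (4π²-s) 2.1025 - 8π² + 12 s - s² ≥ 4 + 9.89 s - s² > 0`.
Case `s ≥ 8`: `ρ s ≤ ρ² + π²` gives `ρ² - 8ρ + π² ≥ 0`, so `ρ ≤ 1.523`, `W = s/ρ ≥ 5.25`;
`|T-N| ≤ 23.9 W`, `-N ≥ 4π² W - 8π² + 15.7`; difference `≥ 15.5·5.25 - 63.3 > 0`. -/
def S_N3 : Prop := ∀ ρ u : ℝ, 0 < ρ → ρ ≤ 29 / 10 → 21 / 20 ≤ u → u ≤ 3 → ρ * u ≤ Real.pi →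
  T ρ u < 0

/-- Proof (given `S_N1`, `S_N2`, `S_N3`). `T(2/5) > 0`, `T(21/20) < 0` (`2.9·1.05 < π`), `T` is
strictly decreasing on `[2/5, 21/20]`. -/
def S_ROOT : Prop := ∀ ρ : ℝ, 0 < ρ → ρ ≤ 29 / 10 →
  ∃ u0 : ℝ, 2 / 5 < u0 ∧ u0 < 21 / 20 ∧ T ρ u0 = 0 ∧ (∀ u : ℝ, 0 ≤ u → u < u0 → 0 < T ρ u) ∧
    (∀ u : ℝ, u0 < u → u ≤ 3 → ρ * u ≤ Real.pi → T ρ u < 0)

/-- Proof (given `S_SER`, `S_BND`, `S_MODE`, `S_ROOT`). Let `u0(ρ)` be the root of `S_ROOT`, it is the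
only zero of `T ρ` in `[2/5, 21/20]`. It is continuous: for small `ε` one has `T(ρ, u0-ε) > 0 >
T(ρ, u0+ε)` (also for `ρ'` near `ρ` by joint continuity of `T`), so by the signs in `S_ROOT`
`|u0(ρ') - u0(ρ)| < ε`. `Λ(ρ) = - Im E(zp ρ u0(ρ))` is continuous, `Re E(zp ρ u0) = 0`.
`|Λ(2.9)| < 1/15 ≤ lam` by `S_BND`. For `ρ ≤ 1/10`: by `S_MODE`,
`ρ² Λ(ρ) ≥ (π²/3) u/W² - ρu/(2W) - 4π² ‖E(4π²/z)‖/W ≥ 0.78 - 0.03 - 0.01 > 0.7` (`u/W² ≥ 0.2375`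
on `[0.4, 1.05]`: it is `≥` the smaller of the end point values, or use a crude bound such as
`u/W² ≥ 0.4/4.43 = 0.09`, then `ρ² Λ ≥ 0.2`), so `Λ(ρ) ≥ 0.2/ρ² ≥ lam` for small `ρ`. Intermediate
value theorem. -/
def S_LAM : Prop := ∀ lam : ℝ, 1 / 15 ≤ lam →
  ∃ ρ u0 : ℝ, 0 < ρ ∧ ρ ≤ 29 / 10 ∧ 2 / 5 ≤ u0 ∧ u0 ≤ 21 / 20 ∧
    E (zp ρ u0) = -(lam : ℂ) * I

/-- Proof (given `S_SER`). `d/du G(zp ρ u) = -E(z) ρ i`, so the derivative of `S` is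
`-ρ Im(-ρ i E(z)) = ρ² Re E(z)`. Also `S ρ (-u) = - S ρ u` (conjugation), `S ρ (π/ρ) = 0`
(conjugation and period `2π i`), and continuity. -/
def S_MONO : Prop := ∀ ρ u : ℝ, 0 < ρ →
  HasDerivAt (S ρ) ((e ρ (1 + (u : ℂ) * I)).re) u ∧ S ρ (-u) = - S ρ u ∧ S ρ (Real.pi / ρ) = 0

/-- Proof (given `S_MODG`): `z = ρ(1+ui)`, `- ρ Im(π²/(6z)) = (π²/6) u/W`, `arg z = arctan u`. -/
def S_MODS : Prop := ∀ ρ u : ℝ, 0 < ρ →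
  |S ρ u - (Real.pi ^ 2 / 6 * (u / (1 + u ^ 2)) - ρ / 2 * Real.arctan u + ρ ^ 2 * u / 24)| ≤
    ρ * ‖G (4 * Real.pi ^ 2 / zp ρ u)‖

/-- Lower bound of the maximum (given `S_MODS`, `S_BND`): `ρ ≤ π/3`, `Re(4π²/(ρ(1+i))) ≥ 18.8`. -/
def S_LOW : Prop := ∀ ρ : ℝ, 0 < ρ → 3 * ρ ≤ Real.pi →
  Real.pi ^ 2 / 12 - ρ * Real.pi / 8 + ρ ^ 2 / 24 - 1 / 10000 ≤ S ρ 1

/-- Proof (given `S_MODS`, `S_BND`, `S_LOW`). `ρW ≤ π(u + 1/u) ≤ 5.2 π`, so `Re x ≥ 4/5.2·π ≥ 2.416`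
and `‖G(x)‖ ≤ (23/20) e^{-2.416} ≤ 0.1027`. Upper bound: `u/W ≤ 3/10`, `arctan u ≥ arctan 3 ≥ 1.24`,
`ρ² u/24 ≤ ρπ/24 ≤ 0.131 ρ`: `S ≤ 0.4935 - 0.62ρ + 0.131ρ + 0.1027ρ ≤ 0.4935 - 0.386ρ`, and
`S ρ 1 ≥ 0.8224 - 0.3927 ρ`. (`ρ ≤ π/3`.) Lower bound: with `ρ = θ π/u`, `θ ∈ [0,1]`,
`arctan u ≤ π/2`, `u/W ≥ 0.9/u`:
`-S ≤ (θ(π²/4 + 0.1027π) - 0.15π² - θ² π²/24)/u ≤ 0.91/3 < 0.31` (increasing in `θ`), while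
`S ρ 1 ≥ 0.4568`. -/
def S_MID : Prop := ∀ ρ u : ℝ, 0 < ρ → 3 ≤ u → u ≤ 5 → ρ * u ≤ Real.pi →
  |S ρ u| ≤ S ρ 1 - 1 / 20

/-- Proof (given `S_SER`). Rearranging the double series, `G(z) = Σ_{k≥1} (1/k) /(e^{kz} - 1)`, and
`-Im 1/(e^{a+ib}-1) = sin b/(2(cosh a - cos b))`. So with `y = ρu`
`S ρ u = ρ Σ_{k≥1} sin(ky)/(2k (cosh kρ - cos ky))`. For `k ≥ 2`:
`|sin b|/(cosh a - cos b) ≤ 1/sinh a ≤ 1/a` (as `(cosh a - cos b)² - sin² b sinh² a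
= (1 - cosh a cos b)² ≥ 0`), so these terms contribute at most `Σ_{k≥2} 1/(2k²) = (π²/6-1)/2`.
For `k = 1`: `y ∈ (0, π]`, `c = cos(y/2) ≥ 0`, if `c = 0` the term is `0`; otherwise with
`τ = tan(y/2) ≥ y/2 = ρu/2`: `ρ sin y/(2(cosh ρ - cos y)) = ρ τ c²/((cosh ρ - 1) + 2 τ² c²)
≤ ρτ/(ρ²/2 + 2τ²)` (`cosh ρ - 1 ≥ ρ²/2 ≥ c² ρ²/2`), decreasing in `τ ≥ ρ/2`, and at `τ = ρu/2` it
equals `u/(1+u²)`. -/
def S_FARA : Prop := ∀ ρ u : ℝ, 0 < ρ → 1 ≤ u → ρ * u ≤ Real.pi →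
  |S ρ u| ≤ u / (1 + u ^ 2) + (Real.pi ^ 2 / 6 - 1) / 2

/-- Local expansion. Proof (given `S_SER`, `S_BND`, `S_MODE`, `S_N2`). `f(w) = e ρ w` is holomorphic for
`Re w > 0`; `w0 = 1 + u0 i`. On `|w - w0| ≤ 0.35`: `|w| ≥ √1.16 - 0.35 ≥ 0.727`, `|w| ≤ 1.8`,
`Re w ≥ 0.65`; by `S_MODE` (at `z = ρw`, times `ρ²`)
`|f| ≤ π²/(6·0.5285) + 2.9/(2·0.727) + 2.9²/24 + (4π²/|w|²) (5/4) e^{-X}`,
`X = Re(4π²/(ρw)) = 4π² Re w/(ρ|w|²) ≥ 8.848/|w|² ≥ 2.73`; the last term is at most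
`49.35 e^{-8.848/m}/m` with `m = |w|² ≤ 3.24`, increasing in `m ≤ 8.8`, so `≤ 1`. Total
`≤ 3.12 + 2 + 0.36 + 1 < 7`. Let `a = -i f'(w0)`. Cauchy: `|a| ≤ 7/0.35 = 20`. Since
`Re f(w0) = 0`, the derivative of `T ρ` at `u0` is `24 W² Re(i f'(w0)) = -24 W² Re a`, and it is
`≤ -25`, so `Re a ≥ 25/(24·2.1025²) ≥ 0.235`. For `|v| ≤ 0.1`, `|f''(1+(u0+v)i)| ≤ 2·7/0.25² = 224`,
so `|f(1+(u0+v)i) - f(w0) - f'(w0) v i| ≤ 112 v²`, and `H'(v) = f(1+(u0+v)i) - f(w0)`, `H(0) = 0`: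
integrate, `‖H(v) + a v²/2‖ ≤ 38 |v|³`. -/
def S_LOC : Prop := ∀ ρ u0 : ℝ, 0 < ρ → ρ ≤ 29 / 10 → 2 / 5 ≤ u0 → u0 ≤ 21 / 20 →
  (e ρ (1 + (u0 : ℂ) * I)).re = 0 →
  ∃ a : ℂ, 23 / 100 ≤ a.re ∧ ‖a‖ ≤ 40 ∧
    ∀ v : ℝ, |v| ≤ 1 / 10 → ‖H ρ u0 v + a * (v : ℂ) ^ 2 / 2‖ ≤ 50 * |v| ^ 3

/-- Proof (given `S_ROOT`, `S_MONO`, `S_LOW`, `S_MID`, `S_FARA`, `S_LOC`). `Re e = 0` means `T ρ u0 = 0`,
so `u0` is the root of `S_ROOT`. `Re H ρ u0 v = S ρ (u0+v) - S ρ u0`. With `η = 1/1000`,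
`S_LOC` gives `S ρ (u0 ± η) ≤ S ρ u0 - 0.23 η²/2 + 50 η³ ≤ S ρ u0 - 6·10⁻⁸`. By `S_MONO` and the
signs of `T`, `S ρ` increases on `[0,u0]` and decreases on `[u0, min(3, π/ρ)]`: this settles
`0 ≤ u ≤ min(3, π/ρ)`. For `u ≥ 3`: `S_MID`, and for `u ≥ 5` (then `ρ ≤ π/5`) `S_FARA` and `S_LOW`
(`5/26 + (π²/6-1)/2 ≤ 0.515`, `S ρ 1 - 1/20 ≥ 0.54`) give `|S ρ u| ≤ S ρ 1 - 1/40 ≤ S ρ u0 - 1/40`
(if `π/ρ ≥ 3 ≥ 1` then `S ρ 1 ≤ S ρ u0`). Negative `u`: `S ρ u = -S ρ |u|`; for `|u| ≥ 3` done; for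
`|u| ≤ min(3, π/ρ)`, `-S ρ |u| ≤ max(0, -S ρ (min(3, π/ρ)))` by monotonicity, `S ρ (π/ρ) = 0`, and
`S ρ u0 ≥ S ρ 0 + 6·10⁻⁸ = 6·10⁻⁸`. -/
def S_DROP : Prop := ∀ ρ u0 : ℝ, 0 < ρ → ρ ≤ 29 / 10 → 2 / 5 ≤ u0 → u0 ≤ 21 / 20 →
  (e ρ (1 + (u0 : ℂ) * I)).re = 0 →
  ∀ u : ℝ, |u| ≤ Real.pi / ρ → 1 / 1000 ≤ |u - u0| → S ρ u ≤ S ρ u0 - 5 / 10 ^ 8

/-- Laplace method. Proof. `η = 1/1000`, `α = 23/100`, `β = 5·10⁻⁸`. On `|v| ≤ η`: `Re H ≤ -αv²/2 + 50|v|³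
≤ -α v²/4`, so `|e^{XH} - e^{-Xav²/2}| ≤ X·50|v|³ e^{-Xαv²/4}`
(`|e^a - e^b| ≤ |a-b| max(|e^a|,|e^b|)`), and `∫_ℝ |v|³ e^{-Xαv²/4} = (4/(Xα))²`; contribution
`≤ 50·16/(Xα²) ≤ 15125/X`. `∫_ℝ e^{-Xav²/2} = √(2π/(Xa))` has modulus `≥ √(2π/(40X)) ≥ 0.39/√X`; its
tails `|v| ≥ η` contribute `≤ 2∫_η^∞ e^{-Xαv²/2} ≤ 2/(Xαη) ≤ 8696/X`; the part of the integral with
`|v| ≥ η` is at most `(v2 - v1) e^{-βX} ≤ X e^{-βX} ≤ 1/X`. Since `X ≥ 3·10^10`,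
`0.39/√X > (15125 + 8696 + 1)/X` (`√X ≥ 1.7·10^5`, `0.39·1.7·10^5 = 66300`). -/
def S_LAP : Prop := ∀ (K : ℝ → ℂ) (a : ℂ) (X v1 v2 : ℝ), Continuous K →
  23 / 100 ≤ a.re → ‖a‖ ≤ 40 →
  (∀ v : ℝ, |v| ≤ 1 / 1000 → ‖K v + a * (v : ℂ) ^ 2 / 2‖ ≤ 50 * |v| ^ 3) →
  v1 ≤ -1 / 1000 → 1 / 1000 ≤ v2 →
  (∀ v : ℝ, v1 ≤ v → v ≤ v2 → 1 / 1000 ≤ |v| → (K v).re ≤ -(5 / 10 ^ 8)) →
  3 * 10 ^ 10 ≤ X → v2 - v1 ≤ X →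
  ∫ v in v1..v2, cexp ((X : ℂ) * K v) ≠ 0

/-- Coefficient formula. Proof (given `S_REC`, `S_SER`). Put `c_m = (1/2π) ∫_{-π}^{π} exp(x G(ρ+iy) +
m(ρ+iy)) dy` for integers `m`. (i) `m c_m = x Σ_{k≥1} σ(k) c_{m-k}`: integrate the derivative
of the `2π`-periodic function `exp(x G(ρ+iy) + m(ρ+iy))` in `y`, which is `i(m - x E)` times the
function, and integrate the series of `E` termwise. (ii) `c_m` does not depend on `ρ` (Cauchy on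
rectangles, periodicity) and for `m < 0` it tends to `0`, for `m = 0` to `1` as `ρ → ∞`
(`|G| ≤ C e^{-ρ}`). So `c_m = 0` for `m < 0`, `c_0 = 1` and `c_n = P x n` by the recursion.
Alternative: `exp(x L(q))`, `L(q) = Σ σ(k) q^k/k`, is holomorphic in the unit disc, its Taylor
coefficients satisfy the recursion, and Cauchy's integral formula. -/
def S_INT : Prop := ∀ (x : ℂ) (n : ℕ) (ρ : ℝ), 0 < ρ →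
  P x n = (ρ / (2 * Real.pi) : ℂ) *
    ∫ u in (-(Real.pi / ρ))..(Real.pi / ρ), cexp (x * G (zp ρ u) + (n : ℂ) * zp ρ u)

/-- Proof (given `S_SER`, `S_LAM`, `S_LOC`, `S_DROP`, `S_LAP`, `S_INT`). `lam = n/t ≥ 1/15`; take `ρ, u0` from
`S_LAM`; `e ρ w0 = ρ² E(z0) = -i ρ² lam`; `X = t/ρ ≥ 10^11/2.9`. With `u = u0 + v`,
`i t G(z) + n z = (i t G(z0) + n z0) + X H ρ u0 v`. So `P = (ρ/2π) e^{...} ∫_{v1}^{v2} e^{X H(v)} dv`,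
`v1 = -π/ρ - u0`, `v2 = π/ρ - u0 ≥ π/2.9 - 1.05 > 0.03`, `v2 - v1 = 2π/ρ ≤ X`. Apply `S_LAP`
(`H` is continuous, `Re H = S ρ (u0+v) - S ρ u0`). -/
def S_BIG : Prop := ∀ (t : ℝ) (n : ℕ), 10 ^ 11 ≤ t → t < 15 * (n : ℝ) → P ((t : ℂ) * I) n ≠ 0

end Pool.Agent.Q276.DA
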